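import Pool.Agent.TH754.PS.Syn

set_option autoImplicit false

namespace Pool.Agent.TH754.PS

open Pool.Agent.Helper180.ArithDef Pool.Agent.H986R3.SOA Function

theorem ind_tm (n : ℕ) : ∀ t : Tm, TmB n t → Ind BB RR (el 0 n t.code) := by
  intro t
  induction t with
  | var i => exact fun h => .base (Or.inl ⟨n, i, h, rfl⟩)
  | zero => exact fun _ => .base (Or.inr (Or.inl ⟨n, Or.inl rfl⟩))
  | one => exact fun _ => .base (Or.inr (Or.inl ⟨n, Or.inr rfl⟩))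
  | add s t ih1 ih2 =>
    exact fun h => .step (ih1 h.1) (ih2 h.2) (Or.inl ⟨n, _, _, rfl, rfl, Or.inl rfl⟩)
  | mul s t ih1 ih2 =>
    exact fun h => .step (ih1 h.1) (ih2 h.2) (Or.inl ⟨n, _, _, rfl, rfl, Or.inr rfl⟩)

theorem ind_fm (n e : ℕ) : ∀ φ : Fm, FmB n e φ → Ind BB RR (el (e + 2) n φ.code) := by
  intro φ
  induction φ with
  | eq s t =>
    exact fun h => .step (ind_tm n s h.1) (ind_tm n t h.2)
      (Or.inr (Or.inl ⟨n, _, _, rfl, rfl, e, Or.inl rfl⟩))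
  | lt s t =>
    exact fun h => .step (ind_tm n s h.1) (ind_tm n t h.2)
      (Or.inr (Or.inl ⟨n, _, _, rfl, rfl, e, Or.inr rfl⟩))
  | mem t i =>
    exact fun h => .step (ind_tm n t h.1) (ind_tm n t h.1)
      (Or.inr (Or.inr (Or.inl ⟨n, _, rfl, e, i, h.2, rfl⟩)))
  | neg φ ih =>
    exact fun h => .step (ih h) (ih h)
      (Or.inr (Or.inr (Or.inr (Or.inl ⟨n, e, _, _, rfl, rfl, Or.inl rfl⟩))))
  | and φ ψ ih1 ih2 =>
    exact fun h => .step (ih1 h.1) (ih2 h.2)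
      (Or.inr (Or.inr (Or.inr (Or.inl ⟨n, e, _, _, rfl, rfl, Or.inr rfl⟩))))
  | all i φ ih =>
    exact fun h => .step (ih h.2) (ih h.2)
      (Or.inr (Or.inr (Or.inr (Or.inr (Or.inl ⟨n, e, _, i, rfl, h.1, Or.inl rfl⟩)))))
  | allS i φ ih =>
    exact fun h => .step (ih h.2.2) (ih h.2.2)
      (Or.inr (Or.inr (Or.inr (Or.inr (Or.inl ⟨n, e, _, i, rfl, h.1, Or.inr ⟨h.2.1, rfl⟩⟩)))))

theorem ind_inst {n : ℕ} {χ : Fm} (h : Inst n χ) :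
    Ind BB RR (el 1 (Nat.pair n 0) χ.code) := by
  cases h with
  | basic h => exact .base (Or.inr (Or.inr ⟨_, h, rfl⟩))
  | comp h hn =>
    exact .step (ind_fm _ _ _ h) (ind_fm _ _ _ h)
      (Or.inr (Or.inr (Or.inr (Or.inr (Or.inr (Or.inl ⟨n, _, Or.inl ⟨rfl, hn, rfl⟩⟩))))))
  | ch h hn =>
    exact .step (ind_fm _ _ _ h) (ind_fm _ _ _ h)
      (Or.inr (Or.inr (Or.inr (Or.inr (Or.inr (Or.inl ⟨n, _, Or.inr ⟨rfl, hn, rfl⟩⟩))))))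

theorem ind_cl {n : ℕ} {χ : Fm} (h : Inst n χ) (k : ℕ) :
    Ind BB RR (el 1 (Nat.pair n k) (cl k χ).code) := by
  induction k with
  | zero => exact ind_inst h
  | succ k ih =>
    exact .step ih ih
      (Or.inr (Or.inr (Or.inr (Or.inr (Or.inr (Or.inr ⟨n, k, _, rfl, rfl⟩))))))

/-- The invariant of the inductive definition. -/
def Inv (x : ℕ) : Prop :=
  (∀ n c, x = el 0 n c → ∃ t, TmB n t ∧ t.code = c) ∧
  (∀ e n c, x = el (e + 2) n c → ∃ φ, FmB n e φ ∧ φ.code = c) ∧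
  (∀ n k c, x = el 1 (Nat.pair n k) c → ∃ χ, Inst n χ ∧ (cl k χ).code = c)

theorem Inv.mk0 {n : ℕ} {t : Tm} (h : TmB n t) : Inv (el 0 n t.code) := by
  refine ⟨fun n' c he => ?_, fun e n' c he => ?_, fun n' k c he => ?_⟩
  · obtain ⟨-, rfl, rfl⟩ := el_inj he
    exact ⟨t, h, rfl⟩
  · have := (el_inj he).1
    omega
  · have := (el_inj he).1
    omega

theorem Inv.mk2 {n e : ℕ} {φ : Fm} (h : FmB n e φ) : Inv (el (e + 2) n φ.code) := by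
  refine ⟨fun n' c he => ?_, fun e' n' c he => ?_, fun n' k c he => ?_⟩
  · have := (el_inj he).1
    omega
  · obtain ⟨h1, rfl, rfl⟩ := el_inj he
    obtain rfl : e = e' := by omega
    exact ⟨φ, h, rfl⟩
  · have := (el_inj he).1
    omega

theorem Inv.mk1 {n k : ℕ} {χ : Fm} (h : Inst n χ) : Inv (el 1 (Nat.pair n k) (cl k χ).code) := by
  refine ⟨fun n' c he => ?_, fun e' n' c he => ?_, fun n' k' c he => ?_⟩
  · have := (el_inj he).1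
    omega
  · have := (el_inj he).1
    omega
  · obtain ⟨-, h1, rfl⟩ := el_inj he
    obtain ⟨rfl, rfl⟩ := Nat.pair_eq_pair.mp h1
    exact ⟨χ, h, rfl⟩

theorem inv_of_ind {x : ℕ} (h : Ind BB RR x) : Inv x := by
  induction h with
  | @base x hb =>
    rcases hb with ⟨n, i, hi, rfl⟩ | ⟨n, rfl | rfl⟩ | ⟨χ, hχ, rfl⟩
    · exact Inv.mk0 (t := .var i) hi
    · exact Inv.mk0 (t := .zero) trivial
    · exact Inv.mk0 (t := .one) trivial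
    · exact Inv.mk1 (k := 0) (.basic hχ)
  | @step a b x _ _ hr iha ihb =>
    rcases hr with ⟨n, s, t, rfl, rfl, h⟩ | ⟨n, s, t, rfl, rfl, e, h⟩ |
      ⟨n, s, rfl, e, i, hi, rfl⟩ | ⟨n, e, c, d, rfl, rfl, h⟩ | ⟨n, e, c, i, rfl, hi, h⟩ |
      ⟨n, c, ⟨rfl, hn, rfl⟩ | ⟨rfl, hn, rfl⟩⟩ | ⟨n, k, c, rfl, rfl⟩
    · obtain ⟨s, hs, rfl⟩ := iha.1 _ _ rfl
      obtain ⟨t, ht, rfl⟩ := ihb.1 _ _ rfl
      rcases h with rfl | rfl
      · exact Inv.mk0 (t := .add s t) ⟨hs, ht⟩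
      · exact Inv.mk0 (t := .mul s t) ⟨hs, ht⟩
    · obtain ⟨s, hs, rfl⟩ := iha.1 _ _ rfl
      obtain ⟨t, ht, rfl⟩ := ihb.1 _ _ rfl
      rcases h with rfl | rfl
      · exact Inv.mk2 (φ := .eq s t) ⟨hs, ht⟩
      · exact Inv.mk2 (φ := .lt s t) ⟨hs, ht⟩
    · obtain ⟨s, hs, rfl⟩ := iha.1 _ _ rfl
      exact Inv.mk2 (φ := .mem s i) ⟨hs, hi⟩
    · obtain ⟨φ, hφ, rfl⟩ := iha.2.1 _ _ _ rfl
      obtain ⟨ψ, hψ, rfl⟩ := ihb.2.1 _ _ _ rfl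
      rcases h with rfl | rfl
      · exact Inv.mk2 (φ := .neg φ) hφ
      · exact Inv.mk2 (φ := .and φ ψ) ⟨hφ, hψ⟩
    · obtain ⟨φ, hφ, rfl⟩ := iha.2.1 _ _ _ rfl
      rcases h with rfl | ⟨hne, rfl⟩
      · exact Inv.mk2 (φ := .all i φ) ⟨hi, hφ⟩
      · exact Inv.mk2 (φ := .allS i φ) ⟨hi, hne, hφ⟩
    · obtain ⟨φ, hφ, rfl⟩ := iha.2.1 0 _ _ rfl
      exact Inv.mk1 (k := 0) (.comp hφ hn)
    · obtain ⟨φ, hφ, rfl⟩ := iha.2.1 1 _ _ rfl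
      exact Inv.mk1 (k := 0) (.ch hφ hn)
    · obtain ⟨χ, hχ, rfl⟩ := iha.2.2 _ _ _ rfl
      exact Inv.mk1 (k := k + 1) hχ

theorem T0_code (c : ℕ) : (∃ σ ∈ T0, σ.code = c) ↔
    ∃ n, Ind BB RR (el 1 (Nat.pair n n) c) := by
  constructor
  · rintro ⟨σ, ⟨n, χ, h, rfl⟩, rfl⟩
    exact ⟨n, ind_cl h n⟩
  · rintro ⟨n, h⟩
    obtain ⟨χ, hχ, rfl⟩ := (inv_of_ind h).2.2 n n c rfl
    exact ⟨_, ⟨n, χ, hχ, rfl⟩, rfl⟩

/-- The set of Goedel numbers of members of `T0` has an arithmetical definition. -/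
theorem exists_ax : ∃ θ : Fm, θ.Arithmetical ∧ θ.FreeIn {0} ∧
    ∀ n : ℕ, SatN n 0 0 θ ↔ ∃ σ ∈ T0, σ.code = n := by
  obtain ⟨θ, h1, h2, h3⟩ := exists_fm (R := fun c => ∃ n, Ind BB RR (el 1 (Nat.pair n n) c))
    (dT0 dd)
  exact ⟨θ, h1, h2, fun n => (h3 n).trans (T0_code n).symm⟩

end Pool.Agent.TH754.PS
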