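import Pool.Agent.TH754.PS.Ind
import Pool.Agent.H986R3.SOAFinal

/-! Predicates on naturals that are first-order definable from `+` and `*` are defined in the
standard model by arithmetical formulas of `L_2`. -/

set_option autoImplicit false

namespace Pool.Agent.TH754.PS

open Pool.Agent.Helper180.ArithDef Pool.Agent.H986R3.SOA Function

/-- Formulas of arithmetic with de Bruijn indices. -/
inductive DF : Type
  | add : ℕ → ℕ → ℕ → DF
  | mul : ℕ → ℕ → ℕ → DF
  | bot : DF
  | imp : DF → DF → DF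
  | all : DF → DF

namespace DF

/-- satisfaction in the natural numbers -/
def sat : DF → (ℕ → ℕ) → Prop
  | add i j k, w => w i + w j = w k
  | mul i j k, w => w i * w j = w k
  | bot, _ => False
  | imp φ ψ, w => φ.sat w → ψ.sat w
  | all φ, w => ∀ a, φ.sat (cns a w)

/-- lift a renaming under a binder -/
def lift (ρ : ℕ → ℕ) : ℕ → ℕ
  | 0 => 0
  | n + 1 => ρ n + 1

/-- renaming -/
def ren : DF → (ℕ → ℕ) → DF
  | add i j k, ρ => add (ρ i) (ρ j) (ρ k)
  | mul i j k, ρ => mul (ρ i) (ρ j) (ρ k)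
  | bot, _ => bot
  | imp φ ψ, ρ => imp (φ.ren ρ) (ψ.ren ρ)
  | all φ, ρ => all (φ.ren (lift ρ))

theorem sat_ren (φ : DF) : ∀ (ρ : ℕ → ℕ) (w : ℕ → ℕ),
    (φ.ren ρ).sat w ↔ φ.sat (fun i => w (ρ i)) := by
  induction φ with
  | add i j k => intro ρ w; rfl
  | mul i j k => intro ρ w; rfl
  | bot => intro ρ w; rfl
  | imp φ ψ ih1 ih2 => intro ρ w; simp only [ren, sat, ih1, ih2]
  | all φ ih =>
    intro ρ w
    simp only [ren, sat, ih]
    refine forall_congr' fun a => ?_
    have : (fun i => cns a w (lift ρ i)) = cns a (fun i => w (ρ i)) := by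
      funext i; cases i <;> rfl
    rw [this]

/-- a strict upper bound of the free indices -/
def fb : DF → ℕ
  | add i j k => max (i + 1) (max (j + 1) (k + 1))
  | mul i j k => max (i + 1) (max (j + 1) (k + 1))
  | bot => 0
  | imp φ ψ => max φ.fb ψ.fb
  | all φ => φ.fb - 1

theorem sat_congr (φ : DF) : ∀ (w w' : ℕ → ℕ), (∀ i < φ.fb, w i = w' i) →
    (φ.sat w ↔ φ.sat w') := by
  induction φ with
  | add i j k =>
    intro w w' h
    simp only [sat]
    simp only [fb] at h
    rw [h i (by omega), h j (by omega), h k (by omega)]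
  | mul i j k =>
    intro w w' h
    simp only [sat]
    simp only [fb] at h
    rw [h i (by omega), h j (by omega), h k (by omega)]
  | bot => intro w w' h; rfl
  | imp φ ψ ih1 ih2 =>
    intro w w' h
    simp only [sat]
    simp only [fb] at h
    rw [ih1 w w' (fun i hi => h i (by omega)), ih2 w w' (fun i hi => h i (by omega))]
  | all φ ih =>
    intro w w' h
    simp only [sat]
    simp only [fb] at h
    refine forall_congr' fun a => ih _ _ fun i hi => ?_
    cases i with
    | zero => rfl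
    | succ i => exact h i (by omega)

/-- translation to `L_2`; free indices are translated by `ν`, the new bound variables are
`m, m + 1, …` -/
def toFm : DF → (ℕ → ℕ) → ℕ → Fm
  | add i j k, ν, _ => .eq (.add (.var (ν i)) (.var (ν j))) (.var (ν k))
  | mul i j k, ν, _ => .eq (.mul (.var (ν i)) (.var (ν j))) (.var (ν k))
  | bot, _, _ => .neg (.eq .zero .zero)
  | imp φ ψ, ν, m => .imp (φ.toFm ν m) (ψ.toFm ν m)
  | all φ, ν, m => .all m (φ.toFm (cns m ν) (m + 1))

theorem sat_toFm (φ : DF) : ∀ (ν : ℕ → ℕ) (m : ℕ) (v : ℕ → std.Num) (V : ℕ → Set std.Num),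
    (∀ i < φ.fb, ν i < m) →
    (Sat std v V (φ.toFm ν m) ↔ φ.sat (fun i => v (ν i))) := by
  induction φ with
  | add i j k => intro ν m v V h; exact Iff.rfl
  | mul i j k => intro ν m v V h; exact Iff.rfl
  | bot =>
    intro ν m v V h
    simp only [toFm, Sat, sat, not_true_eq_false]
  | imp φ ψ ih1 ih2 =>
    intro ν m v V h
    simp only [fb] at h
    exact (Sat_imp std v V _ _).trans (imp_congr (ih1 ν m v V (fun i hi => h i (by omega)))
      (ih2 ν m v V (fun i hi => h i (by omega))))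
  | all φ ih =>
    intro ν m v V h
    simp only [fb] at h
    simp only [toFm, Sat, sat]
    refine forall_congr' fun a => ?_
    refine (ih (cns m ν) (m + 1) (update v m a) V (fun i hi => by
      cases i with
      | zero => simp
      | succ i => have := h i (by omega); simp only [cns_succ]; omega)).trans ?_
    refine sat_congr φ _ _ fun i hi => ?_
    cases i with
    | zero => exact update_self _ _ _
    | succ i =>
      have := h i (by omega)
      exact update_of_ne (by show ν i ≠ m; omega) _ _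

theorem toFm_arith (φ : DF) : ∀ (ν : ℕ → ℕ) (m : ℕ), (φ.toFm ν m).Arithmetical := by
  induction φ with
  | add i j k => intro ν m; trivial
  | mul i j k => intro ν m; trivial
  | bot => intro ν m; trivial
  | imp φ ψ ih1 ih2 => intro ν m; exact ⟨ih1 ν m, ih2 ν m⟩
  | all φ ih => intro ν m; exact ih _ _

theorem toFm_fvS (φ : DF) : ∀ (ν : ℕ → ℕ) (m : ℕ), (φ.toFm ν m).fvS = ∅ := by
  induction φ with
  | add i j k => intro ν m; rfl
  | mul i j k => intro ν m; rfl
  | bot => intro ν m; rfl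
  | imp φ ψ ih1 ih2 =>
    intro ν m
    simp only [toFm, Fm.imp, Fm.fvS, ih1, ih2, Set.union_empty]
  | all φ ih => intro ν m; exact ih _ _

theorem toFm_fvN (φ : DF) : ∀ (ν : ℕ → ℕ) (m : ℕ), (φ.toFm ν m).fvN ⊆ Set.range ν := by
  induction φ with
  | add i j k =>
    intro ν m x hx
    simp only [toFm, Fm.fvN, Tm.fv, Set.mem_union, Set.mem_singleton_iff] at hx
    rcases hx with (rfl | rfl) | rfl <;> exact ⟨_, rfl⟩
  | mul i j k =>
    intro ν m x hx
    simp only [toFm, Fm.fvN, Tm.fv, Set.mem_union, Set.mem_singleton_iff] at hx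
    rcases hx with (rfl | rfl) | rfl <;> exact ⟨_, rfl⟩
  | bot =>
    intro ν m x hx
    simp only [toFm, Fm.fvN, Tm.fv, Set.union_empty, Set.mem_empty_iff_false] at hx
  | imp φ ψ ih1 ih2 =>
    intro ν m x hx
    simp only [toFm, Fm.imp, Fm.fvN, Set.mem_union] at hx
    rcases hx with hx | hx
    · exact ih1 ν m hx
    · exact ih2 ν m hx
  | all φ ih =>
    intro ν m x hx
    simp only [toFm, Fm.fvN, Set.mem_sdiff, Set.mem_singleton_iff] at hx
    obtain ⟨i, hi⟩ := ih _ _ hx.1
    cases i with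
    | zero => exact absurd hi.symm hx.2
    | succ i => exact ⟨i, hi⟩

end DF

/-- Predicates definable by a formula of arithmetic. -/
def DD (R : (ℕ → ℕ) → Prop) : Prop := ∃ φ : DF, ∀ w, φ.sat w ↔ R w

theorem dd : DC DD where
  add := ⟨.add 0 1 2, fun _ => Iff.rfl⟩
  mul := ⟨.mul 0 1 2, fun _ => Iff.rfl⟩
  bot := ⟨.bot, fun _ => Iff.rfl⟩
  imp := by
    rintro R S ⟨φ, hφ⟩ ⟨ψ, hψ⟩
    exact ⟨.imp φ ψ, fun w => by simp only [DF.sat, hφ, hψ]⟩
  all := by
    rintro R ⟨φ, hφ⟩
    exact ⟨.all φ, fun w => by simp only [DF.sat, hφ]⟩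
  ren := by
    rintro R ρ ⟨φ, hφ⟩
    exact ⟨φ.ren ρ, fun w => by rw [DF.sat_ren, hφ]⟩

/-- A definable set of naturals is defined by an arithmetical formula in the variable `0`. -/
theorem exists_fm {R : ℕ → Prop} (h : DD (fun w => R (w 0))) : ∃ θ : Fm, θ.Arithmetical ∧
    θ.FreeIn {0} ∧ ∀ n : ℕ, SatN n 0 0 θ ↔ R n := by
  obtain ⟨φ, hφ⟩ := h
  refine ⟨φ.toFm (fun _ => 0) 1, φ.toFm_arith _ _, ⟨?_, φ.toFm_fvS _ _⟩, fun n => ?_⟩
  · intro x hx
    obtain ⟨i, hi⟩ := φ.toFm_fvN _ _ hx
    exact hi.symm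
  · exact (φ.sat_toFm (fun _ => 0) 1 (asg (A := ℕ) n 0 0) _ (fun _ _ => Nat.one_pos)).trans
      (hφ _)

end Pool.Agent.TH754.PS
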