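import Pool.Agent.Helper180.ArithDef

/-! Inductively defined sets of naturals are first-order definable from `+` and `*`. -/

set_option autoImplicit false

namespace Pool.Agent.TH754.PS

open Pool.Agent.Helper180.ArithDef

/-- The least set containing `B` and closed under the rules `R`. -/
inductive Ind (B : ℕ → Prop) (R : ℕ → ℕ → ℕ → Prop) : ℕ → Prop
  | base {n : ℕ} : B n → Ind B R n
  | step {a b n : ℕ} : Ind B R a → Ind B R b → R a b n → Ind B R n

/-- `l` is a derivation. -/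
def Der (B : ℕ → Prop) (R : ℕ → ℕ → ℕ → Prop) (s : ℕ → ℕ) (len : ℕ) : Prop :=
  ∀ k < len, B (s k) ∨ ∃ i < k, ∃ j < k, R (s i) (s j) (s k)

theorem Der.ind {B : ℕ → Prop} {R : ℕ → ℕ → ℕ → Prop} {s : ℕ → ℕ} {len : ℕ} (h : Der B R s len) :
    ∀ k < len, Ind B R (s k) := by
  intro k
  induction k using Nat.strong_induction_on with
  | _ k ih =>
    intro hk
    rcases h k hk with h1 | ⟨i, hi, j, hj, hR⟩
    · exact .base h1
    · exact .step (ih i hi (by omega)) (ih j hj (by omega)) hR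

theorem exists_der {B : ℕ → Prop} {R : ℕ → ℕ → ℕ → Prop} {n : ℕ} (h : Ind B R n) :
    ∃ (s : ℕ → ℕ) (len : ℕ), Der B R s (len + 1) ∧ s len = n := by
  induction h with
  | @base n hn =>
    exact ⟨fun _ => n, 0, fun k _ => Or.inl hn, rfl⟩
  | @step a b n _ _ hR iha ihb =>
    obtain ⟨s1, l1, h1, e1⟩ := iha
    obtain ⟨s2, l2, h2, e2⟩ := ihb
    refine ⟨fun k => if k < l1 + 1 then s1 k else if k < l1 + 1 + (l2 + 1) then s2 (k - (l1 + 1))
      else n, l1 + 1 + (l2 + 1), ?_, by simp⟩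
    intro k hk
    by_cases hk1 : k < l1 + 1
    · simp only [hk1, if_true]
      rcases h1 k hk1 with h3 | ⟨i, hi, j, hj, h3⟩
      · exact Or.inl h3
      · right
        refine ⟨i, hi, j, hj, ?_⟩
        simp only [show i < l1 + 1 by omega, show j < l1 + 1 by omega, if_true]
        exact h3
    · by_cases hk2 : k < l1 + 1 + (l2 + 1)
      · simp only [hk1, if_false, hk2, if_true]
        rcases h2 (k - (l1 + 1)) (by omega) with h3 | ⟨i, hi, j, hj, h3⟩
        · exact Or.inl h3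
        · right
          refine ⟨l1 + 1 + i, by omega, l1 + 1 + j, by omega, ?_⟩
          simp only [show ¬ (l1 + 1 + i < l1 + 1) by omega, show ¬ (l1 + 1 + j < l1 + 1) by omega,
            show l1 + 1 + i < l1 + 1 + (l2 + 1) by omega,
            show l1 + 1 + j < l1 + 1 + (l2 + 1) by omega, if_true, if_false,
            Nat.add_sub_cancel_left]
          exact h3
      · have hk3 : k = l1 + 1 + (l2 + 1) := by omega
        subst hk3
        right
        refine ⟨l1, by omega, l1 + 1 + l2, by omega, ?_⟩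
        simp only [hk1, hk2, show l1 < l1 + 1 by omega, if_true, if_false,
          show ¬ (l1 + 1 + l2 < l1 + 1) by omega,
          show l1 + 1 + l2 < l1 + 1 + (l2 + 1) by omega, Nat.add_sub_cancel_left, e1, e2]
        exact hR

theorem exists_beta (s : ℕ → ℕ) (n : ℕ) : ∃ c, ∀ k ≤ n, Nat.beta c k = s k := by
  let l := (List.range (n + 1)).map s
  have hl : l.length = n + 1 := by simp [l]
  refine ⟨Nat.unbeta l, fun k hk => ?_⟩
  have := Nat.beta_unbeta_coe l ⟨k, by omega⟩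
  simp only at this
  rw [this]
  simp [l]

theorem ind_iff {B : ℕ → Prop} {R : ℕ → ℕ → ℕ → Prop} (n : ℕ) :
    Ind B R n ↔ ∃ c, ∃ len, n = Nat.beta c len ∧
      ∀ k, k ≤ len → (B (Nat.beta c k) ∨
        ∃ i, i < k ∧ ∃ j, j < k ∧ R (Nat.beta c i) (Nat.beta c j) (Nat.beta c k)) := by
  constructor
  · intro h
    obtain ⟨s, len, h1, h2⟩ := exists_der h
    obtain ⟨c, hc⟩ := exists_beta s len
    refine ⟨c, len, by rw [hc len le_rfl, h2], fun k hk => ?_⟩
    rcases h1 k (by omega) with h3 | ⟨i, hi, j, hj, h3⟩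
    · left; rw [hc k hk]; exact h3
    · right
      refine ⟨i, hi, j, hj, ?_⟩
      rw [hc k hk, hc i (by omega), hc j (by omega)]
      exact h3
  · rintro ⟨c, len, h1, h2⟩
    have h3 : Der B R (fun k => Nat.beta c k) (len + 1) := by
      intro k hk
      rcases h2 k (by omega) with h4 | ⟨i, hi, j, hj, h4⟩
      · exact Or.inl h4
      · exact Or.inr ⟨i, hi, j, hj, h4⟩
    rw [h1]
    exact h3.ind len (by omega)

theorem ind_def {D : ((ℕ → ℕ) → Prop) → Prop} (h : DC D) {B : ℕ → Prop} {R : ℕ → ℕ → ℕ → Prop}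
    (hB : D (fun w => B (w 0))) (hR : D (fun w => R (w 0) (w 1) (w 2))) :
    D (fun w => Ind B R (w 0)) := by
  refine h.iff (fun w => (ind_iff (w 0)).symm) ?_
  refine h.ex' (S := fun c w => ∃ len, w 0 = Nat.beta c len ∧
      ∀ k, k ≤ len → (B (Nat.beta c k) ∨
        ∃ i, i < k ∧ ∃ j, j < k ∧ R (Nat.beta c i) (Nat.beta c j) (Nat.beta c k))) ?_
  refine h.ex' (S := fun len w => w 1 = Nat.beta (w 0) len ∧
      ∀ k, k ≤ len → (B (Nat.beta (w 0) k) ∨
        ∃ i, i < k ∧ ∃ j, j < k ∧ R (Nat.beta (w 0) i) (Nat.beta (w 0) j) (Nat.beta (w 0) k))) ?_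
  refine h.and (h.eq (h.tvar 2) (h.tbeta (h.tvar 1) (h.tvar 0))) ?_
  refine h.all' (S := fun k w => k ≤ w 0 → (B (Nat.beta (w 1) k) ∨
        ∃ i, i < k ∧ ∃ j, j < k ∧ R (Nat.beta (w 1) i) (Nat.beta (w 1) j) (Nat.beta (w 1) k))) ?_
  refine h.imp (h.le (h.tvar 0) (h.tvar 1)) (h.or (h.app1 hB (h.tbeta (h.tvar 2) (h.tvar 0))) ?_)
  refine h.ex' (S := fun i w => i < w 0 ∧ ∃ j, j < w 0 ∧
    R (Nat.beta (w 2) i) (Nat.beta (w 2) j) (Nat.beta (w 2) (w 0))) ?_
  refine h.and (h.lt (h.tvar 0) (h.tvar 1)) ?_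
  refine h.ex' (S := fun j w => j < w 1 ∧
    R (Nat.beta (w 3) (w 0)) (Nat.beta (w 3) j) (Nat.beta (w 3) (w 1))) ?_
  refine h.and (h.lt (h.tvar 0) (h.tvar 2)) ?_
  exact h.app3 hR (h.tbeta (h.tvar 4) (h.tvar 1)) (h.tbeta (h.tvar 4) (h.tvar 0))
    (h.tbeta (h.tvar 4) (h.tvar 2))

end Pool.Agent.TH754.PS
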