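import Pool.Agent.TH754.PS.Code

set_option autoImplicit false

namespace Pool.Agent.TH754.PS

open Pool.Agent.H986R3.SOA Function

theorem tmB_fv {n : ℕ} : ∀ {t : Tm}, TmB n t → t.fv ⊆ Set.Iio n := by
  intro t
  induction t with
  | var i => intro h x hx; rw [Tm.fv, Set.mem_singleton_iff] at hx; subst hx; exact h
  | zero => intro h x hx; exact hx.elim
  | one => intro h x hx; exact hx.elim
  | add s t ih1 ih2 => exact fun h => Set.union_subset (ih1 h.1) (ih2 h.2)
  | mul s t ih1 ih2 => exact fun h => Set.union_subset (ih1 h.1) (ih2 h.2)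

theorem fmB_fvN {n e : ℕ} : ∀ {φ : Fm}, FmB n e φ → φ.fvN ⊆ Set.Iio n := by
  intro φ
  induction φ with
  | eq s t => exact fun h => Set.union_subset (tmB_fv h.1) (tmB_fv h.2)
  | lt s t => exact fun h => Set.union_subset (tmB_fv h.1) (tmB_fv h.2)
  | mem t i => exact fun h => tmB_fv h.1
  | neg φ ih => exact ih
  | and φ ψ ih1 ih2 => exact fun h => Set.union_subset (ih1 h.1) (ih2 h.2)
  | all i φ ih => exact fun h => Set.sdiff_subset.trans (ih h.2)
  | allS i φ ih => exact fun h => ih h.2.2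

theorem fmB_fvS {n e : ℕ} : ∀ {φ : Fm}, FmB n e φ → ∀ i ∈ φ.fvS, i < n ∧ i ≠ e := by
  intro φ
  induction φ with
  | eq s t => exact fun h i hi => hi.elim
  | lt s t => exact fun h i hi => hi.elim
  | mem t i => 
    intro h j hj
    rw [Fm.fvS, Set.mem_singleton_iff] at hj
    subst hj
    exact h.2
  | neg φ ih => exact ih
  | and φ ψ ih1 ih2 => exact fun h i hi => hi.elim (ih1 h.1 i) (ih2 h.2 i)
  | all i φ ih => exact fun h => ih h.2
  | allS i φ ih => exact fun h j hj => ih h.2.2 j hj.1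

theorem basic_fv : ∀ χ ∈ basicAx, (∀ i ∈ χ.fvN, i < 2) ∧ (∀ i ∈ χ.fvS, i < 2) := by
  intro χ hχ
  simp only [basicAx, List.mem_cons, List.not_mem_nil, or_false] at hχ
  rcases hχ with rfl | rfl | rfl | rfl | rfl | rfl | rfl | rfl | rfl <;>
  · constructor
    · intro i hi
      simp [Fm.fvN, Fm.imp, Fm.iff, Fm.or, Tm.fv] at hi
      try omega
    · intro i hi
      simp [Fm.fvS, Fm.imp, Fm.iff, Fm.or] at hi
      try omega

theorem inst_fv {n : ℕ} {χ : Fm} (h : Inst n χ) :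
    (∀ i ∈ χ.fvN, i < n) ∧ (∀ i ∈ χ.fvS, i < n) := by
  cases h with
  | basic h => exact basic_fv χ h
  | @comp n ψ h hn =>
    refine ⟨fun i hi => ?_, fun i hi => ?_⟩
    · by_contra hlt
      have h1 : i ∉ ψ.fvN := fun hx => hlt (fmB_fvN h hx)
      simp [compAx, Fm.exS, Fm.iff, Fm.imp, Fm.fvN, Tm.fv, h1] at hi
    · by_contra hlt
      have h1 : i ∉ ψ.fvS := fun hx => hlt (fmB_fvS h i hx).1
      simp [compAx, Fm.exS, Fm.iff, Fm.imp, Fm.fvS, h1] at hi
  | @ch n φ h hn =>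
    refine ⟨fun i hi => ?_, fun i hi => ?_⟩
    · by_contra hlt
      have h1 : i ∉ φ.fvN := fun hx => hlt (fmB_fvN h hx)
      simp [chAx, Fm.exS, Fm.iff, Fm.imp, Fm.fvN, Tm.fv, h1, prT] at hi
    · by_contra hlt
      have h1 : i ∉ φ.fvS := fun hx => hlt (fmB_fvS h i hx).1
      simp [chAx, Fm.exS, Fm.iff, Fm.imp, Fm.fvS, h1] at hi
      omega

theorem cl_fvN (χ : Fm) : ∀ n i : ℕ, i ∈ (cl n χ).fvN → i ∈ χ.fvN ∧ n ≤ i := by
  intro n
  induction n with
  | zero => exact fun i hi => ⟨hi, Nat.zero_le _⟩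
  | succ n ih =>
    intro i hi
    have h1 : i ∈ (cl n χ).fvN ∧ i ≠ n := hi
    have h2 := ih i h1.1
    exact ⟨h2.1, by have := h1.2; omega⟩

theorem cl_fvS (χ : Fm) : ∀ n i : ℕ, i ∈ (cl n χ).fvS → i ∈ χ.fvS ∧ n ≤ i := by
  intro n
  induction n with
  | zero => exact fun i hi => ⟨hi, Nat.zero_le _⟩
  | succ n ih =>
    intro i hi
    have h1 : i ∈ (cl n χ).fvS ∧ i ≠ n := hi
    have h2 := ih i h1.1
    exact ⟨h2.1, by have := h1.2; omega⟩

theorem T0_sentence : ∀ σ ∈ T0, σ.IsSentence := by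
  rintro σ ⟨n, χ, h, rfl⟩
  have h1 := inst_fv h
  constructor
  · refine Set.eq_empty_iff_forall_notMem.mpr fun i hi => ?_
    have h2 := cl_fvN χ n i hi
    have h3 := h1.1 i h2.1
    omega
  · refine Set.eq_empty_iff_forall_notMem.mpr fun i hi => ?_
    have h2 := cl_fvS χ n i hi
    have h3 := h1.2 i h2.1
    omega

theorem sat_of_cl (M : Model) (χ : Fm) : ∀ (n : ℕ) (v : ℕ → M.Num) (V : ℕ → Set M.Num),
    (∀ j, V j ∈ M.sets) → Sat M v V (cl n χ) → Sat M v V χ := by
  intro n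
  induction n with
  | zero => exact fun v V _ h => h
  | succ n ih =>
    intro v V hV h
    have h1 := h (v n) (V n) (hV n)
    rw [update_eq_self, update_eq_self] at h1
    exact ih v V hV h1

theorem holds_of_cl {M : Model} {n : ℕ} {χ : Fm} (h : M.Holds (cl n χ)) : M.Holds χ :=
  fun v V hV => sat_of_cl M χ n v V hV (h v V hV)

theorem holds_cl {M : Model} {χ : Fm} (h : M.Holds χ) : ∀ n, M.Holds (cl n χ) := by
  intro n
  induction n with
  | zero => exact h
  | succ n ih =>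
    intro v V hV a A hA
    refine ih _ _ fun j => ?_
    by_cases hj : j = n
    · subst hj; rw [update_self]; exact hA
    · rw [update_of_ne hj]; exact hV j

theorem std_basic : ∀ χ ∈ basicAx, std.Holds χ := by
  intro χ hχ v V _
  simp only [basicAx, List.mem_cons, List.not_mem_nil, or_false] at hχ
  rcases hχ with rfl | rfl | rfl | rfl | rfl | rfl | rfl | rfl | rfl
  · exact Nat.succ_ne_zero (v 0)
  · rw [Sat_imp]
    exact fun h => Nat.succ_injective h
  · exact Nat.add_zero (v 0)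
  · exact (Nat.add_assoc (v 0) (v 1) 1).symm
  · exact Nat.mul_zero (v 0)
  · exact Nat.mul_succ (v 0) (v 1)
  · exact Nat.not_lt_zero (v 0)
  · rw [Sat_iff, Sat_or]
    exact Nat.lt_succ_iff_lt_or_eq
  · rw [Sat_imp]
    intro h a
    have h0 : (0 : ℕ) ∈ V 0 := h.1
    have h1 : ∀ n : ℕ, n ∈ V 0 → n + 1 ∈ V 0 := fun n hn => by
      have h2 := h.2 n
      rw [Sat_imp] at h2
      simp only [Sat, Tm.val] at h2
      exact h2 hn
    have h3 : ∀ n : ℕ, n ∈ V 0 := fun n => Nat.rec h0 (fun n hn => h1 n hn) n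
    simp only [Sat, Tm.val, update_self]
    exact h3 a

theorem std_comp {n : ℕ} {ψ : Fm} (h : FmB n 0 ψ) : std.Holds (compAx ψ) := by
  intro v V _
  rw [compAx, Sat_exS]
  refine ⟨{a | Sat std (update v 0 a) V ψ}, trivial, fun a => ?_⟩
  rw [Sat_iff]
  simp only [Sat, Tm.val, update_self]
  refine Sat_congr std ψ _ _ _ _ (fun _ _ => rfl) (fun i hi => ?_)
  rw [update_of_ne (fmB_fvS h i hi).2]

theorem std_ch {n : ℕ} {φ : Fm} (h : FmB n 1 φ) : std.Holds (chAx φ) := by
  intro v V _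
  rw [chAx, Sat_imp]
  intro h1
  simp only [Sat, Sat_exS] at h1
  choose f hf0 hf using h1
  simp only [Sat, Sat_exS, Sat_iff]
  let Z : Set std.Num := {x : ℕ | ∃ a m : ℕ, x = pr a m ∧ m ∈ f a}
  refine ⟨Z, trivial, fun a => ⟨f a, trivial, ?_, ?_⟩⟩
  · intro m
    simp only [Tm.val, val_prT, update_self]
    have e1 : update (update v 0 a) 1 m 0 = a := by simp
    have e2 : update (update V 1 Z) 0 (f a) 1 = Z := by
      rw [update_of_ne (by decide), update_self]
    rw [e1, e2]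
    constructor
    · intro hm
      exact ⟨a, m, rfl, hm⟩
    · rintro ⟨a', m', h2, h3⟩
      obtain ⟨rfl, rfl⟩ := pr_inj h2
      exact h3
  · refine (Sat_congr std φ _ _ _ _ (fun _ _ => rfl) (fun i hi => ?_)).mpr (hf a)
    by_cases hi0 : i = 0
    · subst hi0; simp
    · rw [update_of_ne hi0, update_of_ne hi0, update_of_ne (fmB_fvS h i hi).2]

theorem T0_true : ∀ σ ∈ T0, std.Holds σ := by
  rintro σ ⟨n, χ, h, rfl⟩
  refine holds_cl ?_ n
  cases h with
  | basic h => exact std_basic χ h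
  | comp h hn => exact std_comp h
  | ch h hn => exact std_ch h

end Pool.Agent.TH754.PS
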