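import Pool.Agent.TH754.PS.Ren

set_option autoImplicit false

namespace Pool.Agent.TH754.PS

open Pool.Agent.H986R3.SOA Function

/-- The axioms of `Σ¹₁-AC₀`: those of `ACA₀` and the choice schema for `Σ¹₁` formulas. -/
inductive Sigma11AC0 : Fm → Prop
  | aca {φ : Fm} : ACA0 φ → Sigma11AC0 φ
  | choice (φ : Fm) (i m j k : ℕ) : φ.IsSigma11 → k ≠ j → m ≠ i → k ∉ φ.fvS →
      Sigma11AC0 (choiceAx φ i m j k)

/-- The `Π¹₁` formula `τ(a)` defines (the set of Goedel numbers of the members of) `T` in the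
standard model. -/
def Pi11Defines (τ : Fm) (T : Set Fm) : Prop :=
  τ.IsPi11 ∧ τ.FreeIn {0} ∧ ∀ n : ℕ, SatN n 0 0 τ ↔ ∃ φ ∈ T, φ.code = n

theorem T0_Sigma11AC0 : ∀ φ, Sigma11AC0 φ → Proves T0 φ := by
  intro φ h
  cases h with
  | aca h => exact T0_ACA0 φ h
  | choice φ i m j k _ h1 h2 h3 => exact T0_choice φ i m j k h1 h2 h3

theorem std_ACA0 : ∀ φ, ACA0 φ → std.Holds φ := fun φ h => T0_ACA0 φ h std T0_true

variable (𝒜 : Arithmetization)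

/-- Reflection for the empty theory. -/
def rho0 : Fm :=
  .all 2 (.imp (.and 𝒜.isPi (.ex 1 (.and 𝒜.prf (.all 0 (.neg 𝒜.axIn))))) 𝒜.tr)

/-- `x_2` is a `Π¹₁` sentence that has a proof from axioms satisfying `α(x_0)`. -/
def AA (α : Fm) : Fm := .and 𝒜.isPi (.ex 1 (.and 𝒜.prf (.all 0 (.imp 𝒜.axIn α))))

/-- The definition `α(x_0) ∧ ∀ x_2 (A(x_2) → ∀ X_i θ(x_2))`. -/
def tau (α : Fm) (i : ℕ) (θ : Fm) : Fm := .allS i (.and α (.all 2 (.imp (AA 𝒜 α) θ)))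

variable {𝒜}

theorem rho0_sentence : (rho0 𝒜).IsSentence := by
  constructor
  · refine Set.eq_empty_iff_forall_notMem.mpr fun x hx => ?_
    have h1 := @(𝒜.isPi_free).1 x
    have h2 := @(𝒜.prf_free).1 x
    have h3 := @(𝒜.axIn_free).1 x
    have h4 := @(𝒜.tr_free).1 x
    simp only [rho0, Fm.fvN, Fm.imp, Fm.ex, Set.mem_union, Set.mem_sdiff,
      Set.mem_singleton_iff, Set.mem_insert_iff] at hx h1 h2 h3 h4
    tauto
  · refine Set.eq_empty_iff_forall_notMem.mpr fun x hx => ?_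
    simp only [rho0, Fm.fvS, Fm.imp, Fm.ex, 𝒜.isPi_free.2, 𝒜.prf_free.2, 𝒜.axIn_free.2,
      𝒜.tr_free.2, Set.union_empty, Set.mem_empty_iff_false] at hx

theorem AA_arith {α : Fm} (hα : α.Arithmetical) : (AA 𝒜 α).Arithmetical :=
  ⟨𝒜.isPi_arith, 𝒜.prf_arith, 𝒜.axIn_arith, hα⟩

theorem AA_free {α : Fm} (hα : α.FreeIn {0}) : (AA 𝒜 α).FreeIn {2} := by
  constructor
  · intro x hx
    have h1 := @(𝒜.isPi_free).1 x
    have h2 := @(𝒜.prf_free).1 x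
    have h3 := @(𝒜.axIn_free).1 x
    have h4 := @hα.1 x
    simp only [AA, Fm.fvN, Fm.imp, Fm.ex, Set.mem_union, Set.mem_sdiff,
      Set.mem_singleton_iff, Set.mem_insert_iff] at hx h1 h2 h3 h4 ⊢
    tauto
  · refine Set.eq_empty_iff_forall_notMem.mpr fun x hx => ?_
    simp only [AA, Fm.fvS, Fm.imp, Fm.ex, 𝒜.isPi_free.2, 𝒜.prf_free.2, 𝒜.axIn_free.2,
      hα.2, Set.union_empty, Set.mem_empty_iff_false] at hx

theorem tau_pi {α : Fm} (hα : α.Arithmetical) (i : ℕ) {θ : Fm} (hθ : θ.Arithmetical) :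
    (tau 𝒜 α i θ).IsPi11 := ⟨i, _, rfl, hα, AA_arith hα, hθ⟩

theorem tau_free {α : Fm} (hα : α.FreeIn {0}) (i : ℕ) {θ : Fm}
    (hθ : (Fm.allS i θ).FreeIn {2}) : (tau 𝒜 α i θ).FreeIn {0} := by
  constructor
  · intro x hx
    have h1 := @(AA_free (𝒜 := 𝒜) hα).1 x
    have h2 := @hα.1 x
    have h3 := @hθ.1 x
    simp only [tau, Fm.fvN, Fm.imp, Set.mem_union, Set.mem_sdiff,
      Set.mem_singleton_iff] at hx h1 h2 h3 ⊢
    tauto
  · refine Set.eq_empty_iff_forall_notMem.mpr fun x hx => ?_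
    have h3 : x ∉ θ.fvS \ {i} := by
      have : θ.fvS \ {i} = ∅ := hθ.2
      rw [this]; exact id
    simp only [tau, Fm.fvS, Fm.imp, hα.2, (AA_free (𝒜 := 𝒜) hα).2, Set.mem_union, Set.mem_sdiff,
      Set.mem_singleton_iff, Set.mem_empty_iff_false, false_or] at hx h3
    tauto

/-- `tr` at `x` -/
def TrAt (𝒜 : Arithmetization) (M : Model) (x : M.Num) : Prop :=
  Sat M (asg M.zero M.zero x) (fun _ => ∅) 𝒜.tr

def PiAt (𝒜 : Arithmetization) (M : Model) (x : M.Num) : Prop :=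
  Sat M (asg M.zero M.zero x) (fun _ => ∅) 𝒜.isPi

def PrfAt (𝒜 : Arithmetization) (M : Model) (p x : M.Num) : Prop :=
  Sat M (asg M.zero p x) (fun _ => ∅) 𝒜.prf

def InAt (𝒜 : Arithmetization) (M : Model) (a p : M.Num) : Prop :=
  Sat M (asg a p M.zero) (fun _ => ∅) 𝒜.axIn

def AlAt (M : Model) (α : Fm) (a : M.Num) : Prop :=
  Sat M (asg a M.zero M.zero) (fun _ => ∅) α

section
variable {M : Model} (v : ℕ → M.Num) (V : ℕ → Set M.Num)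

theorem tr_at : Sat M v V 𝒜.tr ↔ TrAt 𝒜 M (v 2) :=
  Sat_free_asg M 𝒜.tr_free _ _ _ _ (by
    intro j hj
    rw [Set.mem_singleton_iff] at hj
    subst hj; rfl)

theorem pi_at : Sat M v V 𝒜.isPi ↔ PiAt 𝒜 M (v 2) :=
  Sat_free_asg M 𝒜.isPi_free _ _ _ _ (by
    intro j hj
    rw [Set.mem_singleton_iff] at hj
    subst hj; rfl)

theorem prf_at : Sat M v V 𝒜.prf ↔ PrfAt 𝒜 M (v 1) (v 2) :=
  Sat_free_asg M 𝒜.prf_free _ _ _ _ (by
    intro j hj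
    rcases hj with rfl | rfl <;> rfl)

theorem in_at : Sat M v V 𝒜.axIn ↔ InAt 𝒜 M (v 0) (v 1) :=
  Sat_free_asg M 𝒜.axIn_free _ _ _ _ (by
    intro j hj
    rcases hj with rfl | rfl <;> rfl)

theorem al_at {α : Fm} (hα : α.FreeIn {0}) : Sat M v V α ↔ AlAt M α (v 0) :=
  Sat_free_asg M hα _ _ _ _ (by
    intro j hj
    rw [Set.mem_singleton_iff] at hj
    subst hj; rfl)

theorem AA_at {α : Fm} (hα : α.FreeIn {0}) : Sat M v V (AA 𝒜 α) ↔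
    PiAt 𝒜 M (v 2) ∧ ∃ p, PrfAt 𝒜 M p (v 2) ∧ ∀ a, InAt 𝒜 M a p → AlAt M α a := by
  simp only [AA, Sat, Sat_ex, Sat_imp, pi_at, prf_at, in_at, al_at _ _ hα]
  simp

theorem rho0_at : Sat M v V (rho0 𝒜) ↔
    ∀ x, PiAt 𝒜 M x → (∃ p, PrfAt 𝒜 M p x ∧ ∀ a, ¬ InAt 𝒜 M a p) → TrAt 𝒜 M x := by
  simp only [rho0, Sat, Sat_ex, Sat_imp, pi_at, prf_at, in_at, tr_at]
  simp

theorem tau_at {α : Fm} (hα : α.FreeIn {0}) {i : ℕ} {θ : Fm} (htr : 𝒜.tr = .allS i θ) :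
    Sat M v V (tau 𝒜 α i θ) ↔ AlAt M α (v 0) ∧
      ∀ x, PiAt 𝒜 M x → (∃ p, PrfAt 𝒜 M p x ∧ ∀ a, InAt 𝒜 M a p → AlAt M α a) →
        TrAt 𝒜 M x := by
  have h1 : ∀ x, TrAt 𝒜 M x ↔ ∀ A ∈ M.sets, Sat M (update v 2 x) (update V i A) θ := by
    intro x
    have h2 := tr_at (𝒜 := 𝒜) (update v 2 x) V
    rw [htr] at h2
    simp only [update_self] at h2
    exact h2.symm
  simp only [tau, Sat, Sat_imp, al_at _ _ hα, AA_at _ _ hα, h1, update_self]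
  constructor
  · intro h
    obtain ⟨A, hA⟩ := M.sets_nonempty
    exact ⟨(h A hA).1, fun x hx hp B hB => (h B hB).2 x ⟨hx, hp⟩⟩
  · rintro ⟨h2, h3⟩ A hA
    exact ⟨h2, fun x hx => h3 x hx.1 hx.2 A hA⟩

theorem refl_at {τ : Fm} (hτ : τ.FreeIn {0}) : Sat M v V (𝒜.reflection τ) ↔
    ∀ x, PiAt 𝒜 M x → (∃ p, PrfAt 𝒜 M p x ∧ ∀ a, InAt 𝒜 M a p → AlAt M τ a) →
      TrAt 𝒜 M x := by
  simp only [Arithmetization.reflection, Arithmetization.Pr, Sat, Sat_ex, Sat_imp, pi_at, prf_at,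
    in_at, tr_at, al_at _ _ hτ]
  simp

end

/-- In the standard model the truth predicate is correct. -/
theorem tr_std {φ : Fm} (hφ : φ.IsPi11Sentence) (h : std.Holds φ) :
    TrAt 𝒜 std (φ.code : ℕ) := by
  have h1 := 𝒜.tr_proves φ hφ std std_ACA0 (fun _ => std.zero) (fun _ => (∅ : Set std.Num))
    (fun _ => trivial)
  rw [Sat_iff] at h1
  have h2 := h1.mpr (h _ _ (fun _ => trivial))
  simp only [Fm.inst, Sat, Sat_imp, Tm.val, val_numeral] at h2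
  have h3 := h2 (std.num φ.code) (update_self _ _ _)
  have h4 := (tr_at (𝒜 := 𝒜) _ _).mp h3
  rw [update_self] at h4
  have h5 : std.num φ.code = (φ.code : ℕ) := std_num _
  rw [h5] at h4
  exact h4

/-- Soundness of the proof predicate in the standard model. -/
theorem std_refl {T : Set Fm} (hT : ∀ σ ∈ T, σ.IsSentence) (hT' : ∀ σ ∈ T, std.Holds σ)
    (x : ℕ) (hx : PiAt 𝒜 std x) (p : ℕ) (hp : PrfAt 𝒜 std p x)
    (ha : ∀ a : ℕ, InAt 𝒜 std a p → ∃ ψ ∈ T, ψ.code = a) : TrAt 𝒜 std x := by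
  obtain ⟨φ, hφ, rfl⟩ := (𝒜.isPi_std x).mp hx
  exact tr_std hφ (((𝒜.prf_correct T hT φ hφ.2).mpr ⟨p, hp, ha⟩) std hT')

/-- Any arithmetically definable set of true sentences that proves the axioms of `ACA₀` can be
extended by one true sentence to a theory that has a `Π¹₁` definition `τ` for which it proves
`Π¹₁` reflection. -/
theorem extend (𝒜 : Arithmetization) {S : Set Fm} (hS : ∀ σ ∈ S, σ.IsSentence)
    (hS' : ∀ σ ∈ S, std.Holds σ) {ax : Fm} (hax : ax.Arithmetical) (hax0 : ax.FreeIn {0})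
    (hax' : ∀ n : ℕ, SatN n 0 0 ax ↔ ∃ σ ∈ S, σ.code = n) :
    ∃ ρ : Fm, ρ.IsSentence ∧ std.Holds ρ ∧ ∃ τ : Fm, Pi11Defines τ (S ∪ {ρ}) ∧
      Proves (S ∪ {ρ}) (𝒜.reflection τ) := by
  obtain ⟨i, θ, htr, hθ⟩ := 𝒜.tr_pi
  have hρ : std.Holds (rho0 𝒜) := by
    intro v V _
    rw [rho0_at]
    rintro x hx ⟨p, hp, ha⟩
    exact std_refl (T := ∅) (by simp) (by simp) x hx p hp (fun a h => absurd h (ha a))
  have hT : ∀ σ ∈ S ∪ {rho0 𝒜}, σ.IsSentence := by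
    rintro σ (h | h)
    · exact hS σ h
    · rw [Set.mem_singleton_iff] at h
      rw [h]; exact rho0_sentence
  have hT' : ∀ σ ∈ S ∪ {rho0 𝒜}, std.Holds σ := by
    rintro σ (h | h)
    · exact hS' σ h
    · rw [Set.mem_singleton_iff] at h
      rw [h]; exact hρ
  let α : Fm := .or ax (.eq (.var 0) (numeral (rho0 𝒜).code))
  have hα : α.Arithmetical := ⟨hax, trivial⟩
  have hα0 : α.FreeIn {0} := by
    constructor
    · intro x hx
      have h1 := @hax0.1 x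
      simp only [α, Fm.or, Fm.fvN, Tm.fv, numeral_fv, Set.mem_union, Set.mem_singleton_iff,
        Set.mem_empty_iff_false] at hx h1 ⊢
      tauto
    · simp [α, Fm.or, Fm.fvS, hax0.2]
  have hα' : ∀ n : ℕ, AlAt std α n ↔ ∃ σ ∈ S ∪ {rho0 𝒜}, σ.code = n := by
    intro n
    have h1 : AlAt std α n ↔ (SatN n 0 0 ax ∨ n = (rho0 𝒜).code) := by
      simp only [α, AlAt, Sat_or, Sat, val_numeral]
      refine or_congr Iff.rfl ?_
      rw [std_num]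
      rfl
    rw [h1, hax']
    constructor
    · rintro (⟨σ, h2, h3⟩ | h2)
      · exact ⟨σ, Or.inl h2, h3⟩
      · exact ⟨_, Or.inr rfl, h2.symm⟩
    · rintro ⟨σ, h2 | h2, h3⟩
      · exact Or.inl ⟨σ, h2, h3⟩
      · rw [Set.mem_singleton_iff] at h2
        subst h2
        exact Or.inr h3.symm
  have hτ0 : (tau 𝒜 α i θ).FreeIn {0} := tau_free hα0 i (htr ▸ 𝒜.tr_free)
  refine ⟨rho0 𝒜, rho0_sentence, hρ, tau 𝒜 α i θ, ⟨tau_pi hα i hθ, hτ0, fun n => ?_⟩, ?_⟩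
  · rw [← hα']
    refine (tau_at (𝒜 := 𝒜) (M := std) (asg (A := ℕ) n 0 0) (fun _ => (∅ : Set ℕ)) hα0 htr).trans ?_
    refine ⟨fun h => h.1, fun h => ⟨h, ?_⟩⟩
    rintro x hx ⟨p, hp, ha⟩
    exact std_refl hT hT' x hx p hp (fun a h2 => (hα' a).mp (ha a h2))
  · intro M hM v V hV
    rw [refl_at _ _ hτ0]
    rintro x hx ⟨p, hp, ha⟩
    have ha' : ∀ a, InAt 𝒜 M a p → AlAt M α a ∧
      ∀ x, PiAt 𝒜 M x → (∃ p, PrfAt 𝒜 M p x ∧ ∀ a, InAt 𝒜 M a p → AlAt M α a) →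
        TrAt 𝒜 M x := fun a h => (tau_at (𝒜 := 𝒜) _ _ hα0 htr).mp (ha a h)
    by_cases h : ∃ a, InAt 𝒜 M a p
    · obtain ⟨a, h⟩ := h
      exact (ha' a h).2 x hx ⟨p, hp, fun b hb => (ha' b hb).1⟩
    · have hr := hM (rho0 𝒜) (Or.inr rfl) v V hV
      rw [rho0_at] at hr
      exact hr x hx ⟨p, hp, fun b hb => h ⟨b, hb⟩⟩

theorem main (𝒜 : Arithmetization) : ∃ T : Set Fm,
    (∀ φ ∈ T, φ.IsSentence) ∧ (∀ φ, Sigma11AC0 φ → Proves T φ) ∧ Pi11Sound T ∧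
    ∃ τ : Fm, Pi11Defines τ T ∧ Proves T (𝒜.reflection τ) := by
  obtain ⟨ax, h1, h2, h3⟩ := exists_ax
  obtain ⟨ρ, hρ, hρ', τ, hτ, hτ'⟩ := extend 𝒜 T0_sentence T0_true h1 h2 h3
  refine ⟨T0 ∪ {ρ}, ?_, ?_, ?_, τ, hτ, hτ'⟩
  · rintro σ (h | h)
    · exact T0_sentence σ h
    · rw [Set.mem_singleton_iff] at h
      rw [h]; exact hρ
  · exact fun φ hφ M hM => T0_Sigma11AC0 φ hφ M (fun σ hσ => hM σ (Or.inl hσ))
  · intro φ _ hφ
    refine hφ std ?_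
    rintro σ (h | h)
    · exact T0_true σ h
    · rw [Set.mem_singleton_iff] at h
      rw [h]; exact hρ'

end Pool.Agent.TH754.PS
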