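import Pool.Agent.TH754.PS.Models

set_option autoImplicit false

namespace Pool.Agent.TH754.PS

open Pool.Agent.H986R3.SOA Function

/-- renaming of the variables of a term -/
def tmRen (ρ : ℕ → ℕ) : Tm → Tm
  | .var i => .var (ρ i)
  | .zero => .zero
  | .one => .one
  | .add s t => .add (tmRen ρ s) (tmRen ρ t)
  | .mul s t => .mul (tmRen ρ s) (tmRen ρ t)

/-- renaming of all (free and bound) variables of a formula -/
def fmRen (ρ σ : ℕ → ℕ) : Fm → Fm
  | .eq s t => .eq (tmRen ρ s) (tmRen ρ t)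
  | .lt s t => .lt (tmRen ρ s) (tmRen ρ t)
  | .mem t i => .mem (tmRen ρ t) (σ i)
  | .neg φ => .neg (fmRen ρ σ φ)
  | .and φ ψ => .and (fmRen ρ σ φ) (fmRen ρ σ ψ)
  | .all i φ => .all (ρ i) (fmRen ρ σ φ)
  | .allS i φ => .allS (σ i) (fmRen ρ σ φ)

theorem val_ren (M : Model) (ρ : ℕ → ℕ) (v : ℕ → M.Num) (t : Tm) :
    (tmRen ρ t).val M v = t.val M (v ∘ ρ) := by
  induction t with
  | var i => rfl
  | zero => rfl
  | one => rfl
  | add s t ih1 ih2 => simp only [tmRen, Tm.val, ih1, ih2]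
  | mul s t ih1 ih2 => simp only [tmRen, Tm.val, ih1, ih2]

theorem sat_ren (M : Model) {ρ σ : ℕ → ℕ} (hρ : Injective ρ) (hσ : Injective σ) (φ : Fm) :
    ∀ (v : ℕ → M.Num) (V : ℕ → Set M.Num),
      Sat M v V (fmRen ρ σ φ) ↔ Sat M (v ∘ ρ) (V ∘ σ) φ := by
  induction φ with
  | eq s t => intro v V; simp only [fmRen, Sat, val_ren]
  | lt s t => intro v V; simp only [fmRen, Sat, val_ren]
  | mem t i => intro v V; simp only [fmRen, Sat, val_ren, comp_apply]
  | neg φ ih => intro v V; simp only [fmRen, Sat, ih]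
  | and φ ψ ih1 ih2 => intro v V; simp only [fmRen, Sat, ih1, ih2]
  | all i φ ih =>
    intro v V
    simp only [fmRen, Sat, ih]
    refine forall_congr' fun a => ?_
    rw [update_comp_eq_of_injective v hρ]
  | allS i φ ih =>
    intro v V
    simp only [fmRen, Sat, ih]
    refine forall_congr' fun A => forall_congr' fun _ => ?_
    rw [update_comp_eq_of_injective V hσ]

theorem tmB_mono {n n' : ℕ} (hn : n ≤ n') : ∀ {t : Tm}, TmB n t → TmB n' t := by
  intro t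
  induction t with
  | var i => exact fun h => lt_of_lt_of_le h hn
  | zero => exact id
  | one => exact id
  | add s t ih1 ih2 => exact fun h => ⟨ih1 h.1, ih2 h.2⟩
  | mul s t ih1 ih2 => exact fun h => ⟨ih1 h.1, ih2 h.2⟩

theorem fmB_mono {n n' e : ℕ} (hn : n ≤ n') : ∀ {φ : Fm}, FmB n e φ → FmB n' e φ := by
  intro φ
  induction φ with
  | eq s t => exact fun h => ⟨tmB_mono hn h.1, tmB_mono hn h.2⟩
  | lt s t => exact fun h => ⟨tmB_mono hn h.1, tmB_mono hn h.2⟩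
  | mem t i => exact fun h => ⟨tmB_mono hn h.1, lt_of_lt_of_le h.2.1 hn, h.2.2⟩
  | neg φ ih => exact ih
  | and φ ψ ih1 ih2 => exact fun h => ⟨ih1 h.1, ih2 h.2⟩
  | all i φ ih => exact fun h => ⟨lt_of_lt_of_le h.1 hn, ih h.2⟩
  | allS i φ ih => exact fun h => ⟨lt_of_lt_of_le h.1 hn, h.2.1, ih h.2.2⟩

theorem exists_tmB (t : Tm) : ∃ n, TmB n t := by
  induction t with
  | var i => exact ⟨i + 1, Nat.lt_succ_self i⟩
  | zero => exact ⟨0, trivial⟩
  | one => exact ⟨0, trivial⟩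
  | add s t ih1 ih2 =>
    obtain ⟨a, ha⟩ := ih1
    obtain ⟨b, hb⟩ := ih2
    exact ⟨max a b, tmB_mono (le_max_left _ _) ha, tmB_mono (le_max_right _ _) hb⟩
  | mul s t ih1 ih2 =>
    obtain ⟨a, ha⟩ := ih1
    obtain ⟨b, hb⟩ := ih2
    exact ⟨max a b, tmB_mono (le_max_left _ _) ha, tmB_mono (le_max_right _ _) hb⟩

theorem exists_fmB (ρ σ : ℕ → ℕ) (e : ℕ) (he : ∀ i, σ i ≠ e) (φ : Fm) :
    ∃ n, FmB n e (fmRen ρ σ φ) := by
  induction φ with
  | eq s t =>
    obtain ⟨a, ha⟩ := exists_tmB (tmRen ρ s)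
    obtain ⟨b, hb⟩ := exists_tmB (tmRen ρ t)
    exact ⟨max a b, tmB_mono (le_max_left _ _) ha, tmB_mono (le_max_right _ _) hb⟩
  | lt s t =>
    obtain ⟨a, ha⟩ := exists_tmB (tmRen ρ s)
    obtain ⟨b, hb⟩ := exists_tmB (tmRen ρ t)
    exact ⟨max a b, tmB_mono (le_max_left _ _) ha, tmB_mono (le_max_right _ _) hb⟩
  | mem t i =>
    obtain ⟨a, ha⟩ := exists_tmB (tmRen ρ t)
    exact ⟨max a (σ i + 1), tmB_mono (le_max_left _ _) ha,
      lt_of_lt_of_le (Nat.lt_succ_self _) (le_max_right _ _), he i⟩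
  | neg φ ih => exact ih
  | and φ ψ ih1 ih2 =>
    obtain ⟨a, ha⟩ := ih1
    obtain ⟨b, hb⟩ := ih2
    exact ⟨max a b, fmB_mono (le_max_left _ _) ha, fmB_mono (le_max_right _ _) hb⟩
  | all i φ ih =>
    obtain ⟨a, ha⟩ := ih
    exact ⟨max a (ρ i + 1), lt_of_lt_of_le (Nat.lt_succ_self _) (le_max_right _ _),
      fmB_mono (le_max_left _ _) ha⟩
  | allS i φ ih =>
    obtain ⟨a, ha⟩ := ih
    exact ⟨max a (σ i + 1), lt_of_lt_of_le (Nat.lt_succ_self _) (le_max_right _ _), he i,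
      fmB_mono (le_max_left _ _) ha⟩

theorem T0_comp {M : Model} (hM : ∀ σ ∈ T0, M.Holds σ) (ρ σ : ℕ → ℕ) (hσ : ∀ i, σ i ≠ 0)
    (φ : Fm) : M.Holds (compAx (fmRen ρ σ φ)) := by
  obtain ⟨n, hn⟩ := exists_fmB ρ σ 0 hσ φ
  exact holds_of_cl (hM _ ⟨n + 1, _, .comp (fmB_mono (Nat.le_succ n) hn) (by omega), rfl⟩)

theorem T0_ch {M : Model} (hM : ∀ σ ∈ T0, M.Holds σ) (ρ σ : ℕ → ℕ) (hσ : ∀ i, σ i ≠ 1)
    (φ : Fm) : M.Holds (chAx (fmRen ρ σ φ)) := by
  obtain ⟨n, hn⟩ := exists_fmB ρ σ 1 hσ φ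
  exact holds_of_cl (hM _ ⟨n + 2, _, .ch (fmB_mono (Nat.le_add_right n 2) hn) (by omega), rfl⟩)

theorem T0_basic {M : Model} (hM : ∀ σ ∈ T0, M.Holds σ) {χ : Fm} (h : χ ∈ basicAx) :
    M.Holds χ := holds_of_cl (hM _ ⟨2, χ, .basic h, rfl⟩)

/-- full comprehension -/
theorem T0_comp' {M : Model} (hM : ∀ σ ∈ T0, M.Holds σ) (φ : Fm) (i : ℕ) (v : ℕ → M.Num)
    (V : ℕ → Set M.Num) (hV : ∀ j, V j ∈ M.sets) :
    {a | Sat M (update v i a) V φ} ∈ M.sets := by
  have h := T0_comp hM (Equiv.swap 0 i) (· + 1) (fun j => Nat.succ_ne_zero j) φ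
    (v ∘ Equiv.swap 0 i) (fun j => V (j - 1)) (fun j => hV _)
  rw [compAx, Sat_exS] at h
  obtain ⟨A, hA, h⟩ := h
  have h1 : {a | Sat M (update v i a) V φ} = A := by
    ext a
    have h2 := h a
    rw [Sat_iff] at h2
    simp only [Sat, Tm.val, update_self] at h2
    rw [sat_ren M (Equiv.injective _) (add_left_injective 1)] at h2
    rw [h2]
    refine Sat_congr M φ _ _ _ _ (fun j _ => ?_) (fun j _ => ?_)
    · by_cases hj : j = i
      · subst hj; simp
      · have h3 : Equiv.swap 0 i j ≠ 0 := by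
          intro h4
          rw [Equiv.swap_apply_eq_iff, Equiv.swap_apply_left] at h4
          exact hj h4
        rw [comp_apply, update_of_ne h3, update_of_ne hj, comp_apply, Equiv.swap_apply_self]
    · rw [comp_apply, update_of_ne (Nat.succ_ne_zero j)]
      rfl
  rw [h1]
  exact hA

/-- full choice -/
theorem T0_ch' {M : Model} (hM : ∀ σ ∈ T0, M.Holds σ) (φ : Fm) (i j : ℕ) (v : ℕ → M.Num)
    (V : ℕ → Set M.Num) (hV : ∀ j, V j ∈ M.sets)
    (h : ∀ a, ∃ A ∈ M.sets, Sat M (update v i a) (update V j A) φ) :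
    ∃ Z ∈ M.sets, ∀ a, ∃ A ∈ M.sets, (∀ m, m ∈ A ↔ M.pr a m ∈ Z) ∧
      Sat M (update v i a) (update V j A) φ := by
  have hσ : Injective (fun n => if n = j then 0 else n + 2) := by
    intro a b hab
    simp only at hab
    split_ifs at hab with h1 h2 h2
    · rw [h1, h2]
    · omega
  have hch := T0_ch hM (Equiv.swap 0 i) (fun n => if n = j then 0 else n + 2)
    (fun n => by split_ifs <;> omega) φ
    (v ∘ Equiv.swap 0 i) (fun n => V (n - 2)) (fun n => hV _)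
  have key : ∀ (a : M.Num) (A Z : Set M.Num),
      (Sat M (update (v ∘ Equiv.swap 0 i) 0 a) (update (update (fun n => V (n - 2)) 1 Z) 0 A)
        (fmRen (Equiv.swap 0 i) (fun n => if n = j then 0 else n + 2) φ) ↔
      Sat M (update v i a) (update V j A) φ) := by
    intro a A Z
    rw [sat_ren M (Equiv.injective _) hσ]
    refine Sat_congr M φ _ _ _ _ (fun k _ => ?_) (fun k _ => ?_)
    · by_cases hj : k = i
      · subst hj; simp
      · have h3 : Equiv.swap 0 i k ≠ 0 := by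
          intro h4
          rw [Equiv.swap_apply_eq_iff, Equiv.swap_apply_left] at h4
          exact hj h4
        rw [comp_apply, update_of_ne h3, update_of_ne hj, comp_apply, Equiv.swap_apply_self]
    · by_cases hk : k = j
      · subst hk; simp
      · simp [hk]
  rw [chAx, Sat_imp] at hch
  simp only [Sat, Sat_exS, Sat_iff] at hch
  have h0 : ∀ (a : M.Num) (A : Set M.Num),
      update (fun n => V (n - 2)) 0 A = update (update (fun n => V (n - 2)) 1 (V 0)) 0 A := by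
    intro a A
    funext n
    by_cases hn : n = 0
    · subst hn; simp
    · by_cases hn1 : n = 1
      · subst hn1; simp
      · simp [hn]
  obtain ⟨Z, hZ, h1⟩ := hch (fun a => by
    obtain ⟨A, hA, h2⟩ := h a
    exact ⟨A, hA, by rw [h0 a A, key]; exact h2⟩)
  refine ⟨Z, hZ, fun a => ?_⟩
  obtain ⟨A, hA, h2, h3⟩ := h1 a
  refine ⟨A, hA, fun m => ?_, (key a A Z).mp h3⟩
  have h4 := h2 m
  simp only [Tm.val, val_prT, update_self] at h4
  simpa using h4

/-- `T0` proves every axiom of `ACA_0`. -/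
theorem T0_ACA0 : ∀ φ, ACA0 φ → Proves T0 φ := by
  intro φ hφ M hM
  cases hφ with
  | comprehension φ i j h hj =>
    intro v V hV
    rw [Sat_exS]
    refine ⟨_, T0_comp' hM φ i v V hV, fun a => ?_⟩
    rw [Sat_iff]
    simp only [Sat, Tm.val, update_self]
    refine Sat_congr M φ _ _ _ _ (fun _ _ => rfl) (fun k hk => ?_)
    rw [update_of_ne (fun h : k = j => hj (h ▸ hk))]
  | _ => exact T0_basic hM (by simp [basicAx])

/-- The instance of the axiom schema of choice (sets chosen for numbers) for the formula `φ`: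
`∀ x_i ∃ X_j φ → ∃ X_k ∀ x_i ∃ X_j (X_j = {x_m : (x_i, x_m) ∈ X_k} ∧ φ)`. -/
def choiceAx (φ : Fm) (i m j k : ℕ) : Fm :=
  .imp (.all i (.exS j φ)) (.exS k (.all i (.exS j (.and
    (.all m (.iff (.mem (.var m) j) (.mem (prT (.var i) (.var m)) k))) φ))))

theorem T0_choice (φ : Fm) (i m j k : ℕ) (hkj : k ≠ j) (hmi : m ≠ i) (hk : k ∉ φ.fvS) :
    Proves T0 (choiceAx φ i m j k) := by
  intro M hM v V hV
  rw [choiceAx, Sat_imp]
  intro h
  simp only [Sat, Sat_exS] at h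
  obtain ⟨Z, hZ, h1⟩ := T0_ch' hM φ i j v V hV h
  rw [Sat_exS]
  refine ⟨Z, hZ, fun a => ?_⟩
  obtain ⟨A, hA, h2, h3⟩ := h1 a
  rw [Sat_exS]
  refine ⟨A, hA, fun b => ?_, ?_⟩
  · rw [Sat_iff]
    simp only [Sat, Tm.val, val_prT, update_self]
    rw [h2 b, update_of_ne hkj, update_self, update_of_ne hmi.symm, update_self]
  · refine (Sat_congr M φ _ _ _ _ (fun _ _ => rfl) (fun l hl => ?_)).mp h3
    by_cases hlj : l = j
    · subst hlj; simp
    · rw [update_of_ne hlj, update_of_ne hlj, update_of_ne (fun h : l = k => hk (h ▸ hl))]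

end Pool.Agent.TH754.PS
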