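import Pool.Agent.TH754.PS.DFm

/-! The theory `T0`: second-order arithmetic with full comprehension and the full axiom of choice
schema for sets indexed by numbers. Its set of Goedel numbers is arithmetically definable. -/

set_option autoImplicit false

namespace Pool.Agent.TH754.PS

open Pool.Agent.Helper180.ArithDef Pool.Agent.H986R3.SOA Function

/-- all variables of the term have index `< n` -/
def TmB (n : ℕ) : Tm → Prop
  | .var i => i < n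
  | .zero => True
  | .one => True
  | .add s t => TmB n s ∧ TmB n t
  | .mul s t => TmB n s ∧ TmB n t

/-- all variables (free or bound) of the formula have index `< n`, and the set variable with index
`e` does not occur -/
def FmB (n e : ℕ) : Fm → Prop
  | .eq s t => TmB n s ∧ TmB n t
  | .lt s t => TmB n s ∧ TmB n t
  | .mem t i => TmB n t ∧ i < n ∧ i ≠ e
  | .neg φ => FmB n e φ
  | .and φ ψ => FmB n e φ ∧ FmB n e ψ
  | .all i φ => i < n ∧ FmB n e φ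
  | .allS i φ => i < n ∧ i ≠ e ∧ FmB n e φ

/-- comprehension for `ψ` -/
def compAx (ψ : Fm) : Fm := .exS 0 (.all 0 (.iff (.mem (.var 0) 0) ψ))

/-- choice for `φ` -/
def chAx (φ : Fm) : Fm :=
  .imp (.all 0 (.exS 0 φ)) (.exS 1 (.all 0 (.exS 0 (.and
    (.all 1 (.iff (.mem (.var 1) 0) (.mem (prT (.var 0) (.var 1)) 1))) φ))))

/-- the basic axioms and induction -/
def basicAx : List Fm :=
  [.neg (.eq (.add (.var 0) .one) .zero),
   .imp (.eq (.add (.var 0) .one) (.add (.var 1) .one)) (.eq (.var 0) (.var 1)),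
   .eq (.add (.var 0) .zero) (.var 0),
   .eq (.add (.var 0) (.add (.var 1) .one)) (.add (.add (.var 0) (.var 1)) .one),
   .eq (.mul (.var 0) .zero) .zero,
   .eq (.mul (.var 0) (.add (.var 1) .one)) (.add (.mul (.var 0) (.var 1)) (.var 0)),
   .neg (.lt (.var 0) .zero),
   .iff (.lt (.var 0) (.add (.var 1) .one)) (.or (.lt (.var 0) (.var 1)) (.eq (.var 0) (.var 1))),
   .imp (.and (.mem .zero 0) (.all 0 (.imp (.mem (.var 0) 0) (.mem (.add (.var 0) .one) 0))))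
     (.all 0 (.mem (.var 0) 0))]

/-- the instances of the axioms with all indices `< n` -/
inductive Inst : ℕ → Fm → Prop
  | basic {χ : Fm} : χ ∈ basicAx → Inst 2 χ
  | comp {n : ℕ} {ψ : Fm} : FmB n 0 ψ → 1 ≤ n → Inst n (compAx ψ)
  | ch {n : ℕ} {φ : Fm} : FmB n 1 φ → 2 ≤ n → Inst n (chAx φ)

/-- universal closure with respect to all variables with index `< n` -/
def cl : ℕ → Fm → Fm
  | 0, χ => χ
  | n + 1, χ => .all n (.allS n (cl n χ))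

/-- The theory `T0`. -/
def T0 : Set Fm := {σ | ∃ n χ, Inst n χ ∧ σ = cl n χ}

/-! ### Codes -/

def cNeg (c : ℕ) : ℕ := pr 3 c
def cAnd (c d : ℕ) : ℕ := pr 4 (pr c d)
def cAll (i c : ℕ) : ℕ := pr 5 (pr i c)
def cAllS (i c : ℕ) : ℕ := pr 6 (pr i c)
def cImp (c d : ℕ) : ℕ := cNeg (cAnd c (cNeg d))
def cIff (c d : ℕ) : ℕ := cAnd (cImp c d) (cImp d c)
def cExS (i c : ℕ) : ℕ := cNeg (cAllS i (cNeg c))

theorem code_neg (φ : Fm) : (Fm.neg φ).code = cNeg φ.code := rfl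
theorem code_and (φ ψ : Fm) : (Fm.and φ ψ).code = cAnd φ.code ψ.code := rfl
theorem code_all (i : ℕ) (φ : Fm) : (Fm.all i φ).code = cAll i φ.code := rfl
theorem code_allS (i : ℕ) (φ : Fm) : (Fm.allS i φ).code = cAllS i φ.code := rfl
theorem code_imp (φ ψ : Fm) : (Fm.imp φ ψ).code = cImp φ.code ψ.code := rfl
theorem code_iff (φ ψ : Fm) : (Fm.iff φ ψ).code = cIff φ.code ψ.code := rfl
theorem code_exS (i : ℕ) (φ : Fm) : (Fm.exS i φ).code = cExS i φ.code := rfl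

/-- the code of `compAx ψ` in terms of the code of `ψ` -/
def cComp (c : ℕ) : ℕ := cExS 0 (cAll 0 (cIff (Fm.mem (.var 0) 0).code c))

/-- the code of `chAx φ` in terms of the code of `φ` -/
def cCh (c : ℕ) : ℕ :=
  cImp (cAll 0 (cExS 0 c)) (cExS 1 (cAll 0 (cExS 0 (cAnd
    (Fm.all 1 (.iff (.mem (.var 1) 0) (.mem (prT (.var 0) (.var 1)) 1))).code c))))

theorem code_compAx (ψ : Fm) : (compAx ψ).code = cComp ψ.code := rfl
theorem code_chAx (φ : Fm) : (chAx φ).code = cCh φ.code := rfl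

/-! ### Definability of the code functions -/

section
variable {D : ((ℕ → ℕ) → Prop) → Prop} (h : DC D)
include h

theorem tconst (n : ℕ) : DT D (fun _ => n) := by
  induction n with
  | zero => exact h.tzero
  | succ n ih => exact h.tadd ih h.tone

theorem tpr {F G : (ℕ → ℕ) → ℕ} (hF : DT D F) (hG : DT D G) : DT D (fun w => pr (F w) (G w)) :=
  h.tadd (h.tmul (h.tadd hF hG) (h.tadd hF hG)) hF

theorem tNeg {F : (ℕ → ℕ) → ℕ} (hF : DT D F) : DT D (fun w => cNeg (F w)) :=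
  tpr h (tconst h 3) hF

theorem tAnd {F G : (ℕ → ℕ) → ℕ} (hF : DT D F) (hG : DT D G) :
    DT D (fun w => cAnd (F w) (G w)) := tpr h (tconst h 4) (tpr h hF hG)

theorem tAll {F G : (ℕ → ℕ) → ℕ} (hF : DT D F) (hG : DT D G) :
    DT D (fun w => cAll (F w) (G w)) := tpr h (tconst h 5) (tpr h hF hG)

theorem tAllS {F G : (ℕ → ℕ) → ℕ} (hF : DT D F) (hG : DT D G) :
    DT D (fun w => cAllS (F w) (G w)) := tpr h (tconst h 6) (tpr h hF hG)

theorem tImp {F G : (ℕ → ℕ) → ℕ} (hF : DT D F) (hG : DT D G) :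
    DT D (fun w => cImp (F w) (G w)) := tNeg h (tAnd h hF (tNeg h hG))

theorem tIff {F G : (ℕ → ℕ) → ℕ} (hF : DT D F) (hG : DT D G) :
    DT D (fun w => cIff (F w) (G w)) := tAnd h (tImp h hF hG) (tImp h hG hF)

theorem tExS {F G : (ℕ → ℕ) → ℕ} (hF : DT D F) (hG : DT D G) :
    DT D (fun w => cExS (F w) (G w)) := tNeg h (tAllS h hF (tNeg h hG))

theorem tComp {F : (ℕ → ℕ) → ℕ} (hF : DT D F) : DT D (fun w => cComp (F w)) :=
  tExS h (tconst h 0) (tAll h (tconst h 0) (tIff h (tconst h _) hF))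

theorem tCh {F : (ℕ → ℕ) → ℕ} (hF : DT D F) : DT D (fun w => cCh (F w)) :=
  tImp h (tAll h (tconst h 0) (tExS h (tconst h 0) hF))
    (tExS h (tconst h 1) (tAll h (tconst h 0) (tExS h (tconst h 0) (tAnd h (tconst h _) hF))))

end

/-! ### The inductive definition -/

/-- elements: kind, bound, code. Kind `0`: terms, kind `1`: partial closures of instances,
kind `e + 2`: formulas without the set variable `e`. -/
def el (t n c : ℕ) : ℕ := Nat.pair t (Nat.pair n c)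

theorem el_inj {t n c t' n' c' : ℕ} (h : el t n c = el t' n' c') : t = t' ∧ n = n' ∧ c = c' := by
  simp only [el, Nat.pair_eq_pair] at h
  exact h

def B1 (x : ℕ) : Prop := ∃ n i, i < n ∧ x = el 0 n (pr 0 i)
def B2 (x : ℕ) : Prop := ∃ n, x = el 0 n (pr 1 0) ∨ x = el 0 n (pr 2 0)
def B3 (x : ℕ) : Prop := ∃ χ ∈ basicAx, x = el 1 (Nat.pair 2 0) χ.code
def R1 (a b x : ℕ) : Prop := ∃ n s t, a = el 0 n s ∧ b = el 0 n t ∧
  (x = el 0 n (pr 3 (pr s t)) ∨ x = el 0 n (pr 4 (pr s t)))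
def R2 (a b x : ℕ) : Prop := ∃ n s t, a = el 0 n s ∧ b = el 0 n t ∧
  ∃ e, (x = el (e + 2) n (pr 0 (pr s t)) ∨ x = el (e + 2) n (pr 1 (pr s t)))
def R3 (a x : ℕ) : Prop := ∃ n s, a = el 0 n s ∧
  ∃ e i, (i < n ∧ i ≠ e) ∧ x = el (e + 2) n (pr 2 (pr s i))
def R4 (a b x : ℕ) : Prop := ∃ n e, ∃ c d, a = el (e + 2) n c ∧ b = el (e + 2) n d ∧
  (x = el (e + 2) n (cNeg c) ∨ x = el (e + 2) n (cAnd c d))
def R5 (a x : ℕ) : Prop := ∃ n e c i, a = el (e + 2) n c ∧ i < n ∧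
  (x = el (e + 2) n (cAll i c) ∨ (i ≠ e ∧ x = el (e + 2) n (cAllS i c)))
def R6 (a x : ℕ) : Prop := ∃ n c, (a = el 2 n c ∧ 1 ≤ n ∧ x = el 1 (Nat.pair n 0) (cComp c)) ∨
  (a = el 3 n c ∧ 2 ≤ n ∧ x = el 1 (Nat.pair n 0) (cCh c))
def R7 (a x : ℕ) : Prop := ∃ n k c, a = el 1 (Nat.pair n k) c ∧
  x = el 1 (Nat.pair n (k + 1)) (cAll k (cAllS k c))

def BB (x : ℕ) : Prop := B1 x ∨ B2 x ∨ B3 x
def RR (a b x : ℕ) : Prop := R1 a b x ∨ R2 a b x ∨ R3 a x ∨ R4 a b x ∨ R5 a x ∨ R6 a x ∨ R7 a x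

section
variable {D : ((ℕ → ℕ) → Prop) → Prop} (h : DC D)
include h

theorem tel {F G H : (ℕ → ℕ) → ℕ} (hF : DT D F) (hG : DT D G) (hH : DT D H) :
    DT D (fun w => el (F w) (G w) (H w)) := h.tpair hF (h.tpair hG hH)

theorem dB1 : D (fun w => B1 (w 0)) := by
  refine h.ex' (S := fun n w => ∃ i, i < n ∧ w 0 = el 0 n (pr 0 i)) ?_
  refine h.ex' (S := fun i w => i < w 0 ∧ w 1 = el 0 (w 0) (pr 0 i)) ?_
  exact h.and (h.lt (h.tvar 0) (h.tvar 1))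
    (h.eq (h.tvar 2) (tel h (tconst h 0) (h.tvar 1) (tpr h (tconst h 0) (h.tvar 0))))

theorem dB2 : D (fun w => B2 (w 0)) := by
  refine h.ex' (S := fun n w => w 0 = el 0 n (pr 1 0) ∨ w 0 = el 0 n (pr 2 0)) ?_
  exact h.or (h.eq (h.tvar 1) (tel h (tconst h 0) (h.tvar 0) (tconst h _)))
    (h.eq (h.tvar 1) (tel h (tconst h 0) (h.tvar 0) (tconst h _)))

theorem dlist (l : List Fm) : D (fun w => ∃ χ ∈ l, w 0 = el 1 (Nat.pair 2 0) χ.code) := by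
  induction l with
  | nil => exact h.iff (fun w => by simp) h.bot
  | cons χ l ih =>
    refine h.iff (fun w => ?_) (h.or (h.eq (h.tvar 0) (tconst h (el 1 (Nat.pair 2 0) χ.code))) ih)
    simp only [List.mem_cons, exists_eq_or_imp]

theorem dB3 : D (fun w => B3 (w 0)) := dlist h _

theorem dR1 : D (fun w => R1 (w 0) (w 1) (w 2)) := by
  refine h.ex' (S := fun n w => ∃ s t, w 0 = el 0 n s ∧ w 1 = el 0 n t ∧
    (w 2 = el 0 n (pr 3 (pr s t)) ∨ w 2 = el 0 n (pr 4 (pr s t)))) ?_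
  refine h.ex' (S := fun s w => ∃ t, w 1 = el 0 (w 0) s ∧ w 2 = el 0 (w 0) t ∧
    (w 3 = el 0 (w 0) (pr 3 (pr s t)) ∨ w 3 = el 0 (w 0) (pr 4 (pr s t)))) ?_
  refine h.ex' (S := fun t w => w 2 = el 0 (w 1) (w 0) ∧ w 3 = el 0 (w 1) t ∧
    (w 4 = el 0 (w 1) (pr 3 (pr (w 0) t)) ∨ w 4 = el 0 (w 1) (pr 4 (pr (w 0) t)))) ?_
  exact h.and (h.eq (h.tvar 3) (tel h (tconst h 0) (h.tvar 2) (h.tvar 1)))
    (h.and (h.eq (h.tvar 4) (tel h (tconst h 0) (h.tvar 2) (h.tvar 0)))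
      (h.or (h.eq (h.tvar 5) (tel h (tconst h 0) (h.tvar 2)
          (tpr h (tconst h 3) (tpr h (h.tvar 1) (h.tvar 0)))))
        (h.eq (h.tvar 5) (tel h (tconst h 0) (h.tvar 2)
          (tpr h (tconst h 4) (tpr h (h.tvar 1) (h.tvar 0)))))))

theorem dR2 : D (fun w => R2 (w 0) (w 1) (w 2)) := by
  refine h.ex' (S := fun n w => ∃ s t, w 0 = el 0 n s ∧ w 1 = el 0 n t ∧
    ∃ e, (w 2 = el (e + 2) n (pr 0 (pr s t)) ∨ w 2 = el (e + 2) n (pr 1 (pr s t)))) ?_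
  refine h.ex' (S := fun s w => ∃ t, w 1 = el 0 (w 0) s ∧ w 2 = el 0 (w 0) t ∧
    ∃ e, (w 3 = el (e + 2) (w 0) (pr 0 (pr s t)) ∨ w 3 = el (e + 2) (w 0) (pr 1 (pr s t)))) ?_
  refine h.ex' (S := fun t w => w 2 = el 0 (w 1) (w 0) ∧ w 3 = el 0 (w 1) t ∧
    ∃ e, (w 4 = el (e + 2) (w 1) (pr 0 (pr (w 0) t)) ∨
      w 4 = el (e + 2) (w 1) (pr 1 (pr (w 0) t)))) ?_
  refine h.and (h.eq (h.tvar 3) (tel h (tconst h 0) (h.tvar 2) (h.tvar 1)))
    (h.and (h.eq (h.tvar 4) (tel h (tconst h 0) (h.tvar 2) (h.tvar 0))) ?_)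
  refine h.ex' (S := fun e w => (w 5 = el (e + 2) (w 2) (pr 0 (pr (w 1) (w 0))) ∨
      w 5 = el (e + 2) (w 2) (pr 1 (pr (w 1) (w 0))))) ?_
  exact (h.or (h.eq (h.tvar 6) (tel h (h.tadd (h.tvar 0) (tconst h 2)) (h.tvar 3)
          (tpr h (tconst h 0) (tpr h (h.tvar 2) (h.tvar 1)))))
        (h.eq (h.tvar 6) (tel h (h.tadd (h.tvar 0) (tconst h 2)) (h.tvar 3)
          (tpr h (tconst h 1) (tpr h (h.tvar 2) (h.tvar 1))))))

theorem dR3 : D (fun w => R3 (w 0) (w 1)) := by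
  refine h.ex' (S := fun n w => ∃ s, w 0 = el 0 n s ∧
    ∃ e i, (i < n ∧ i ≠ e) ∧ w 1 = el (e + 2) n (pr 2 (pr s i))) ?_
  refine h.ex' (S := fun s w => w 1 = el 0 (w 0) s ∧
    ∃ e i, (i < w 0 ∧ i ≠ e) ∧ w 2 = el (e + 2) (w 0) (pr 2 (pr s i))) ?_
  refine h.and (h.eq (h.tvar 2) (tel h (tconst h 0) (h.tvar 1) (h.tvar 0))) ?_
  refine h.ex' (S := fun e w => ∃ i, (i < w 1 ∧ i ≠ e) ∧
    w 3 = el (e + 2) (w 1) (pr 2 (pr (w 0) i))) ?_
  refine h.ex' (S := fun i w => (i < w 2 ∧ i ≠ w 0) ∧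
    w 4 = el (w 0 + 2) (w 2) (pr 2 (pr (w 1) i))) ?_
  exact h.and (h.and (h.lt (h.tvar 0) (h.tvar 3)) (h.not (h.eq (h.tvar 0) (h.tvar 1))))
    (h.eq (h.tvar 5) (tel h (h.tadd (h.tvar 1) (tconst h 2)) (h.tvar 3)
      (tpr h (tconst h 2) (tpr h (h.tvar 2) (h.tvar 0)))))

theorem dR4 : D (fun w => R4 (w 0) (w 1) (w 2)) := by
  refine h.ex' (S := fun n w => ∃ e, ∃ c d, w 0 = el (e + 2) n c ∧ w 1 = el (e + 2) n d ∧
    (w 2 = el (e + 2) n (cNeg c) ∨ w 2 = el (e + 2) n (cAnd c d))) ?_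
  refine h.ex' (S := fun e w => ∃ c d, w 1 = el (e + 2) (w 0) c ∧ w 2 = el (e + 2) (w 0) d ∧
    (w 3 = el (e + 2) (w 0) (cNeg c) ∨ w 3 = el (e + 2) (w 0) (cAnd c d))) ?_
  refine h.ex' (S := fun c w => ∃ d, w 2 = el (w 0 + 2) (w 1) c ∧ w 3 = el (w 0 + 2) (w 1) d ∧
    (w 4 = el (w 0 + 2) (w 1) (cNeg c) ∨ w 4 = el (w 0 + 2) (w 1) (cAnd c d))) ?_
  refine h.ex' (S := fun d w => w 3 = el (w 1 + 2) (w 2) (w 0) ∧ w 4 = el (w 1 + 2) (w 2) d ∧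
    (w 5 = el (w 1 + 2) (w 2) (cNeg (w 0)) ∨ w 5 = el (w 1 + 2) (w 2) (cAnd (w 0) d))) ?_
  have he : DT D (fun w => w 2 + 2) := h.tadd (h.tvar 2) (tconst h 2)
  exact h.and (h.eq (h.tvar 4) (tel h he (h.tvar 3) (h.tvar 1)))
    (h.and (h.eq (h.tvar 5) (tel h he (h.tvar 3) (h.tvar 0)))
      (h.or (h.eq (h.tvar 6) (tel h he (h.tvar 3) (tNeg h (h.tvar 1))))
        (h.eq (h.tvar 6) (tel h he (h.tvar 3) (tAnd h (h.tvar 1) (h.tvar 0))))))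

theorem dR5 : D (fun w => R5 (w 0) (w 1)) := by
  refine h.ex' (S := fun n w => ∃ e c i, w 0 = el (e + 2) n c ∧ i < n ∧
    (w 1 = el (e + 2) n (cAll i c) ∨ (i ≠ e ∧ w 1 = el (e + 2) n (cAllS i c)))) ?_
  refine h.ex' (S := fun e w => ∃ c i, w 1 = el (e + 2) (w 0) c ∧ i < w 0 ∧
    (w 2 = el (e + 2) (w 0) (cAll i c) ∨ (i ≠ e ∧ w 2 = el (e + 2) (w 0) (cAllS i c)))) ?_
  refine h.ex' (S := fun c w => ∃ i, w 2 = el (w 0 + 2) (w 1) c ∧ i < w 1 ∧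
    (w 3 = el (w 0 + 2) (w 1) (cAll i c) ∨ (i ≠ w 0 ∧ w 3 = el (w 0 + 2) (w 1) (cAllS i c)))) ?_
  refine h.ex' (S := fun i w => w 3 = el (w 1 + 2) (w 2) (w 0) ∧ i < w 2 ∧
    (w 4 = el (w 1 + 2) (w 2) (cAll i (w 0)) ∨
      (i ≠ w 1 ∧ w 4 = el (w 1 + 2) (w 2) (cAllS i (w 0))))) ?_
  have he : DT D (fun w => w 2 + 2) := h.tadd (h.tvar 2) (tconst h 2)
  exact h.and (h.eq (h.tvar 4) (tel h he (h.tvar 3) (h.tvar 1)))
    (h.and (h.lt (h.tvar 0) (h.tvar 3))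
      (h.or (h.eq (h.tvar 5) (tel h he (h.tvar 3) (tAll h (h.tvar 0) (h.tvar 1))))
        (h.and (h.not (h.eq (h.tvar 0) (h.tvar 2)))
          (h.eq (h.tvar 5) (tel h he (h.tvar 3) (tAllS h (h.tvar 0) (h.tvar 1)))))))

theorem dR6 : D (fun w => R6 (w 0) (w 1)) := by
  refine h.ex' (S := fun n w => ∃ c,
    (w 0 = el 2 n c ∧ 1 ≤ n ∧ w 1 = el 1 (Nat.pair n 0) (cComp c)) ∨
    (w 0 = el 3 n c ∧ 2 ≤ n ∧ w 1 = el 1 (Nat.pair n 0) (cCh c))) ?_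
  refine h.ex' (S := fun c w =>
    (w 1 = el 2 (w 0) c ∧ 1 ≤ w 0 ∧ w 2 = el 1 (Nat.pair (w 0) 0) (cComp c)) ∨
    (w 1 = el 3 (w 0) c ∧ 2 ≤ w 0 ∧ w 2 = el 1 (Nat.pair (w 0) 0) (cCh c))) ?_
  exact h.or (h.and (h.eq (h.tvar 2) (tel h (tconst h 2) (h.tvar 1) (h.tvar 0)))
      (h.and (h.le (tconst h 1) (h.tvar 1)) (h.eq (h.tvar 3) (tel h (tconst h 1)
        (h.tpair (h.tvar 1) (tconst h 0)) (tComp h (h.tvar 0))))))
    (h.and (h.eq (h.tvar 2) (tel h (tconst h 3) (h.tvar 1) (h.tvar 0)))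
      (h.and (h.le (tconst h 2) (h.tvar 1)) (h.eq (h.tvar 3) (tel h (tconst h 1)
        (h.tpair (h.tvar 1) (tconst h 0)) (tCh h (h.tvar 0))))))

theorem dR7 : D (fun w => R7 (w 0) (w 1)) := by
  refine h.ex' (S := fun n w => ∃ k c, w 0 = el 1 (Nat.pair n k) c ∧
    w 1 = el 1 (Nat.pair n (k + 1)) (cAll k (cAllS k c))) ?_
  refine h.ex' (S := fun k w => ∃ c, w 1 = el 1 (Nat.pair (w 0) k) c ∧
    w 2 = el 1 (Nat.pair (w 0) (k + 1)) (cAll k (cAllS k c))) ?_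
  refine h.ex' (S := fun c w => w 2 = el 1 (Nat.pair (w 1) (w 0)) c ∧
    w 3 = el 1 (Nat.pair (w 1) (w 0 + 1)) (cAll (w 0) (cAllS (w 0) c))) ?_
  exact h.and (h.eq (h.tvar 3) (tel h (tconst h 1) (h.tpair (h.tvar 2) (h.tvar 1)) (h.tvar 0)))
    (h.eq (h.tvar 4) (tel h (tconst h 1) (h.tpair (h.tvar 2) (h.tadd (h.tvar 1) h.tone))
      (tAll h (h.tvar 1) (tAllS h (h.tvar 1) (h.tvar 0)))))

theorem dBB : D (fun w => BB (w 0)) := h.or (dB1 h) (h.or (dB2 h) (dB3 h))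

theorem ren02 {R : ℕ → ℕ → Prop} (hR : D (fun w => R (w 0) (w 1))) :
    D (fun w => R (w 0) (w 2)) :=
  h.ren (fun n => match n with | 0 => 0 | _ => 2) hR

theorem dRR : D (fun w => RR (w 0) (w 1) (w 2)) :=
  h.or (dR1 h) (h.or (dR2 h) (h.or (ren02 h (R := R3) (dR3 h)) (h.or (dR4 h)
    (h.or (ren02 h (R := R5) (dR5 h)) (h.or (ren02 h (R := R6) (dR6 h))
      (ren02 h (R := R7) (dR7 h)))))))

theorem dT0 : D (fun w => ∃ n, Ind BB RR (el 1 (Nat.pair n n) (w 0))) := by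
  refine h.ex' (S := fun n w => Ind BB RR (el 1 (Nat.pair n n) (w 0))) ?_
  exact h.app1 (R := Ind BB RR) (ind_def h (dBB h) (dRR h))
    (tel h (tconst h 1) (h.tpair (h.tvar 0) (h.tvar 0)) (h.tvar 1))

end

end Pool.Agent.TH754.PS
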